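
import Pool.Agent.Helper14.SPV.DEREXT

/-!
# Three facts about fields of characteristic zero
-/

set_option autoImplicit false

open Cardinal

namespace Pool.Agent.Helper92.AHS

/-- Automorphisms of a subring extend to `ℂ`. -/
theorem ext_aut (R : Type) [CommRing R] [IsDomain R] [Algebra R ℂ] [FaithfulSMul R ℂ]
    (σ : R ≃+* R) : ∃ τ : ℂ ≃+* ℂ, ∀ r, τ (algebraMap R ℂ r) = algebraMap R ℂ (σ r) := by
  obtain ⟨ι, v, hv⟩ := exists_isTranscendenceBasis' R ℂ
  let := IsAlgClosed.isAlgClosure_of_transcendence_basis v hv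
  let e : Algebra.adjoin R (Set.range v) ≃+* Algebra.adjoin R (Set.range v) :=
    (hv.1.aevalEquiv.symm.toRingEquiv.trans (MvPolynomial.mapEquiv ι σ)).trans
      hv.1.aevalEquiv.toRingEquiv
  have he : ∀ r, e (algebraMap R _ r) = algebraMap R _ (σ r) := by
    intro r
    change hv.1.aevalEquiv (MvPolynomial.mapEquiv ι σ (hv.1.aevalEquiv.symm (algebraMap R _ r))) = _
    rw [AlgEquiv.commutes, MvPolynomial.mapEquiv_apply, MvPolynomial.algebraMap_eq,
      MvPolynomial.map_C]
    exact hv.1.aevalEquiv.commutes (σ r)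
  refine ⟨IsAlgClosure.equivOfEquiv ℂ ℂ e, fun r => ?_⟩
  rw [IsScalarTower.algebraMap_apply R (Algebra.adjoin R (Set.range v)) ℂ r,
    IsAlgClosure.equivOfEquiv_algebraMap, he,
    ← IsScalarTower.algebraMap_apply R (Algebra.adjoin R (Set.range v)) ℂ]

/-- A complex number fixed by all automorphisms is rational. -/
theorem rat_of_fixed (x : ℂ) (h : ∀ τ : ℂ ≃+* ℂ, τ x = x) : ∃ q : ℚ, (q : ℂ) = x := by
  by_cases hx : Transcendental ℚ x
  · exfalso
    let : Algebra (Polynomial ℚ) ℂ := (Polynomial.aeval x : Polynomial ℚ →ₐ[ℚ] ℂ).toRingHom.toAlgebra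
    have hinj : Function.Injective (algebraMap (Polynomial ℚ) ℂ) :=
      transcendental_iff_injective.1 hx
    have : FaithfulSMul (Polynomial ℚ) ℂ := (faithfulSMul_iff_algebraMap_injective _ _).2 hinj
    obtain ⟨τ, hτ⟩ := ext_aut (Polynomial ℚ) (Polynomial.algEquivAevalXAddC (1 : ℚ)).toRingEquiv
    have h1 := hτ Polynomial.X
    have h2 : algebraMap (Polynomial ℚ) ℂ Polynomial.X = x := Polynomial.aeval_X x
    have h3 : algebraMap (Polynomial ℚ) ℂ
        ((Polynomial.algEquivAevalXAddC (1 : ℚ)).toRingEquiv Polynomial.X) = x + 1 := by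
      change Polynomial.aeval x ((Polynomial.algEquivAevalXAddC (1 : ℚ)) Polynomial.X) = x + 1
      simp [Polynomial.algEquivAevalXAddC]
    rw [h2, h3, h] at h1
    exact one_ne_zero (left_eq_add.1 h1)
  · have hx' : IsAlgebraic ℚ x := by
      by_contra hn
      exact hx hn
    let F : IntermediateField ℚ ℂ := algebraicClosure ℚ ℂ
    have hxF : x ∈ F := mem_algebraicClosure_iff.2 hx'
    have : IsAlgClosure ℚ F := algebraicClosure.isAlgClosure ℚ ℂ
    have : IsGalois ℚ F := inferInstance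
    have hfix : (⟨x, hxF⟩ : F) ∈ (⊥ : IntermediateField ℚ F) := by
      rw [← InfiniteGalois.fixedField_bot (k := ℚ) (K := F), IntermediateField.mem_fixedField_iff]
      intro σ _
      obtain ⟨τ, hτ⟩ := ext_aut F σ.toRingEquiv
      have h1 := hτ ⟨x, hxF⟩
      apply Subtype.ext
      change ((σ ⟨x, hxF⟩ : F) : ℂ) = x
      have h2 : τ x = ((σ ⟨x, hxF⟩ : F) : ℂ) := h1
      rw [← h2, h]
    obtain ⟨q, hq⟩ := IntermediateField.mem_bot.1 hfix
    refine ⟨q, ?_⟩
    have := congrArg (Subtype.val) hq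
    simpa using this

/-- `ℚ_p` embeds into `ℂ`. -/
theorem exists_emb (p : ℕ) [Fact p.Prime] : Nonempty (ℚ_[p] →+* ℂ) := by
  have h1 : 𝔠 ≤ #ℚ_[p] := continuum_le_cardinal_of_nontriviallyNormedField ℚ_[p]
  have h2 : #ℚ_[p] ≤ 𝔠 := by
    have : #(PadicSeq p) ≤ 𝔠 := by
      have h3 : #(PadicSeq p) ≤ #(ℕ → ℚ) := Cardinal.mk_subtype_le _
      refine h3.trans ?_
      simp
    exact (Cardinal.mk_quotient_le (α := PadicSeq p)).trans this
  let K := AlgebraicClosure ℚ_[p]
  have h3 : #K = 𝔠 := by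
    apply le_antisymm
    · have := Algebra.IsAlgebraic.cardinalMk_le_max ℚ_[p] K
      exact this.trans (max_le h2 Cardinal.aleph0_le_continuum)
    · exact h1.trans (Cardinal.mk_le_of_injective (algebraMap ℚ_[p] K).injective)
  have : CharZero K := charZero_of_injective_algebraMap (algebraMap ℚ_[p] K).injective
  obtain ⟨e⟩ := IsAlgClosed.ringEquiv_of_equiv_of_charZero (K := K) (L := ℂ)
    (by rw [h3]; exact Cardinal.aleph0_lt_continuum)
    (by
      have : #K = #ℂ := by rw [h3, Cardinal.mk_complex]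
      exact Cardinal.eq.1 this)
  exact ⟨(e : K →+* ℂ).comp (algebraMap ℚ_[p] K)⟩

/-- An element killed by all derivations is algebraic. -/
theorem alg_of_der {K : Type} [Field K] [Algebra ℚ K] (x : K)
    (h : ∀ δ : Derivation ℚ K K, δ x = 0) : IsAlgebraic ℚ x := by
  by_contra hn
  obtain ⟨D, -, hD⟩ := (Pool.Agent.Helper8.SPV.st_DEREXT ℚ K 0).2 x hn 1
  let δ : Derivation ℚ K K := Derivation.mk'
    { toFun := D
      map_add' := fun a b => map_add D a b
      map_smul' := fun c a => map_ratCast_smul D ℚ ℚ c a } fun a b => D.leibniz a b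
  have h1 : δ x = 1 := hD
  rw [h] at h1
  exact zero_ne_one h1

end Pool.Agent.Helper92.AHS
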